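import Pool.Agent.H529.C.Defs
import Pool.Graph.R_seed8.Y823.Z.CombB

/-!
# The five groups from the three sets
-/

set_option autoImplicit false

namespace Pool.Agent.H962.C

open Finset Pool.Agent.Y823.Z Pool.Agent.H529.C

theorem cm : Pool.Agent.H529.C.S_CM := by
  intro hCV hCR hCA ι _ _ τ s w V0 Bp x G l k a m t X cl n P D
  have hX := D.hX
  have hn1 := D.hn1
  have hn2 := D.hn2
  have hTT : ∑ z, X z ≤ 2 + τ := (sum_le_sum fun z _ => D.h1 z).trans D.hT
  have t0 := P.t0
  have t1 := P.t1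
  have s0 := P.s0
  have s1 := P.s1
  have x0 := P.x0
  have x01 := P.x01
  have hV0 := P.hV0
  have H1 := P.H1
  have H2 := P.H2
  obtain ⟨V, hV1, hV2, hV3⟩ := hCV P D
  obtain ⟨R, hRV, hRc, hR⟩ := hCR P D V hV2 hV3
  rw [hV0] at hV2
  by_cases hn : n < 1.6
  · have hρ : n - (s + (2 + τ - ∑ z, X z)) - 0.00001 ≤ ∑ z ∈ R, X z := by
      rcases hR with hR | hR
      · exfalso
        have h1 := sum_sdiff (f := X) (subset_univ V)
        rw [hR] at hRc
        linarith
      · exact hR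
    obtain ⟨A, hAV, hA1, hA2⟩ := hCA P D hn V R hV1 (by rw [hV0]; exact hV2) hV3 hRV
      (by linarith) hρ
    obtain ⟨g, hg⟩ := groups X V R A hRV hAV
    refine ⟨g, fun Y hY => ?_⟩
    obtain ⟨g1, g2, g3, g4⟩ := hg Y hY
    refine ⟨g4, _, ?_, rfl, ?_, ?_, ?_, ?_, ?_⟩ <;> linarith
  · push Not at hn
    obtain ⟨g, hg⟩ := groups X V R ∅ hRV (empty_subset _)
    refine ⟨g, fun Y hY => ?_⟩
    obtain ⟨g1, g2, g3, g4⟩ := hg Y hY
    rw [sum_empty] at g2
    have hρ : n - (s + (2 + τ - ∑ z, X z)) - 0.00001 ≤ ∑ z ∈ R, X z ∨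
        (∑ z ∈ R, X z = ∑ z, X z - ∑ z ∈ V, X z) := by
      rcases hR with hR | hR
      · right
        have h1 := sum_sdiff (f := X) (subset_univ V)
        rw [hR]
        linarith
      · exact Or.inl hR
    refine ⟨g4, _, ?_, rfl, ?_, ?_, ?_, ?_, ?_⟩
    · linarith
    · linarith
    · rcases hρ with h | h <;> linarith
    · rcases hρ with h | h <;> linarith
    · rcases hρ with h | h <;> linarith
    · rcases hρ with h | h <;> linarith

end Pool.Agent.H962.C
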